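import Pool.Agent.H8.PL.Targets

/-!
# Planar graphs and two-variable logic with counting: from tilings to planar models
-/

set_option autoImplicit false

namespace Pool.Agent.H65.PL

open Pool.Agent.H69.Sp Pool.Agent.H69.Mt Pool.Agent.H16.TO Pool.Agent.H8.PL

theorem hty_zero {W x : ℕ} (hW : 4 ≤ W) : hty W x = 0 ↔ x = 0 := by
  unfold hty
  split_ifs with h1 h2 h3
  · simp [h1]
  · simp [h1]
  · simp [h1]
  · simp [h1]

theorem hty_three {W x : ℕ} (hW : 4 ≤ W) : hty W x = 3 ↔ x + 1 = W := by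
  unfold hty
  split_ifs with h1 h2 h3
  · subst h1
    constructor
    · intro h; exact absurd h (by decide)
    · intro h; omega
  · simp [h2]
  · constructor
    · intro h; exact absurd h (by decide)
    · intro h; exact absurd h h2
  · constructor
    · intro h; exact absurd h (by decide)
    · intro h; exact absurd h h2

theorem z1 (a : ZMod 6) : a ≠ a + 1 := by
  revert a; decide

theorem z2 (a : ZMod 6) : a ≠ a + 1 + 1 := by
  revert a; decide

/-- the rules in the pillowcase -/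
theorem rule_pv {Q : Type} (U : Bool → Bool → Bool → Bool → Q → Prop) (Hh Vv : Q → Q → Prop)
    (W H : ℕ) (hW : 4 ≤ W) (hH : 4 ≤ H) (t : ℕ → ℕ → Q) (ht : GridF U Hh Vv W H t)
    (hLR : LR (PG W H) (plb W H)) :
    Rule U Hh Vv (PG W H) (plb W H) (fun p => t p.1.2.1 p.1.2.2) := by
  refine ⟨hLR, ?_, ?_, ?_⟩
  · intro p _
    have h := ht.1 p.1.2.1 p.2.1 p.1.2.2 p.2.2.1
    have e1 : decide ((plb W H p).h = 0) = decide (p.1.2.1 = 0) :=
      decide_eq_decide.2 (hty_zero hW)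
    have e2 : decide ((plb W H p).h = 3) = decide (p.1.2.1 + 1 = W) :=
      decide_eq_decide.2 (hty_three hW)
    have e3 : decide ((plb W H p).v = 0) = decide (p.1.2.2 = 0) :=
      decide_eq_decide.2 (hty_zero hH)
    have e4 : decide ((plb W H p).v = 3) = decide (p.1.2.2 + 1 = H) :=
      decide_eq_decide.2 (hty_three hH)
    rw [e1, e2, e3, e4]
    exact h
  · rintro p q ⟨had, _, _, _, _, hi, hj, _⟩
    have hi' : ((q.1.2.1 : ℕ) : ZMod 6) = (p.1.2.1 : ZMod 6) + 1 := hi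
    rcases had.1 with ⟨h | h, h'⟩ | ⟨h, _⟩
    · show Hh (t p.1.2.1 p.1.2.2) (t q.1.2.1 q.1.2.2)
      have hq := q.2.1
      have hp := p.2.2.1
      rw [h] at hq
      rw [h, ← h']
      exact ht.2.1 _ _ hq hp
    · rw [h] at hi'
      push_cast at hi'
      exact absurd hi' (z2 _)
    · rw [h] at hi'
      exact absurd hi' (z1 _)
  · rintro p q ⟨had, _, _, _, _, hi, hj, _⟩
    have hj' : ((q.1.2.2 : ℕ) : ZMod 6) = (p.1.2.2 : ZMod 6) + 1 := hj
    rcases had.1 with ⟨_, h⟩ | ⟨h', h | h⟩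
    · rw [h] at hj'
      exact absurd hj' (z1 _)
    · show Vv (t p.1.2.1 p.1.2.2) (t q.1.2.1 q.1.2.2)
      have hq := q.2.2.1
      have hp := p.2.1
      rw [h] at hq
      rw [h, ← h']
      exact ht.2.2 _ _ hp hq
    · rw [h] at hj'
      push_cast at hj'
      exact absurd hj' (z2 _)

theorem pf_mp (hEC : Z_EC) (hDG : Z_DG) (hPR : Z_PR) (hPL : Z_PL) (hPN : Z_PN) (hIS : Z_IS) :
    Z_MP := by
  rintro Q U Hh Vv W H n hW hH hn ⟨t, ht⟩
  obtain ⟨hfin, hcon, hcard⟩ := hPN W H hW hH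
  have hLR := hPL W H hW hH
  have hN : Nat.card (PV W H) = n := by omega
  have hpl : IsPlanar (PG W H) :=
    hEC (PV W H) (PG W H) hcon (hDG (PV W H) (PG W H) (plb W H) hLR).2.1 (hPR W H hW hH)
  let e : PV W H ≃ Fin n := Finite.equivFinOfCardEq hN
  obtain ⟨h1, h2⟩ := hIS (PV W H) (Fin n) e (PG W H) ((PG W H).comap e.symm) (fun a b => by
    simp [SimpleGraph.comap_adj])
  refine ⟨(PG W H).comap e.symm, fun a => plb W H (e.symm a),
    fun a => t (e.symm a).1.2.1 (e.symm a).1.2.2, h1 hpl, ?_⟩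
  refine h2 Q U Hh Vv _ _ ?_
  have h3 := rule_pv U Hh Vv W H hW hH t ht hLR
  simpa using h3

end Pool.Agent.H65.PL
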